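import Pool.Agent.Helper67.MD.Word

/-!
Missing blocks of digits are gaps modulo real numbers.
-/

set_option autoImplicit false

open Finset

namespace Pool.Agent.Helper67.MD

open Classical in
/-- the scales `j` such that, for some real `M` in `[2^j, 2^(j+1))`, the numbers `a / M` modulo one
avoid an interval of length `ε`, for the elements `a` of `A` with `M ≤ a < x` -/
noncomputable def gapScales (A : Set ℕ) (ε : ℝ) (x : ℕ) : Finset ℕ :=
  {j ∈ range (Nat.log 2 x) | ∃ M : ℝ, (2 : ℝ) ^ j ≤ M ∧ M < 2 ^ (j + 1) ∧ ∃ β : ℝ,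
    ∀ a ∈ A, M ≤ (a : ℝ) → a < x → ε ≤ Int.fract ((a : ℝ) / M - β)}

/-- if the block of `h` digits of `a` at position `p` is not `w`, then `a / b ^ (p + h)` modulo one
is not in the interval from `w / b ^ h` of length `1 / b ^ h` -/
theorem fract_of_block {b : ℕ} (hb : 2 ≤ b) {a p h w : ℕ} (hw : w < b ^ h)
    (hne : a / b ^ p % b ^ h ≠ w) :
    1 / (b : ℝ) ^ h ≤ Int.fract ((a : ℝ) / (b : ℝ) ^ (p + h) - (w : ℝ) / (b : ℝ) ^ h) := by
  by_contra hcon
  rw [not_le] at hcon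
  have hb0 : (0 : ℝ) < b := by exact_mod_cast (show 0 < b by omega)
  have hbh : (0 : ℝ) < (b : ℝ) ^ h := by positivity
  have hbp : (0 : ℝ) < (b : ℝ) ^ p := by positivity
  set u : ℝ := (a : ℝ) / (b : ℝ) ^ (p + h) - (w : ℝ) / (b : ℝ) ^ h with hu
  set n : ℤ := ⌊u⌋ with hn
  obtain ⟨f, hf⟩ : ∃ f : ℝ, f = Int.fract u := ⟨_, rfl⟩
  have h1 : u = n + f := by rw [hf]; exact (Int.floor_add_fract u).symm
  have h0 : 0 ≤ f := by rw [hf]; exact Int.fract_nonneg u
  rw [← hf] at hcon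
  -- multiply by `b ^ h`
  have h2 : (a : ℝ) / (b : ℝ) ^ p = w + n * (b : ℝ) ^ h + f * (b : ℝ) ^ h := by
    have h3 : (a : ℝ) / (b : ℝ) ^ p = u * (b : ℝ) ^ h + w := by
      rw [hu, pow_add]
      field_simp
      ring
    rw [h3, h1]
    ring
  have h4 : f * (b : ℝ) ^ h < 1 := by
    rw [lt_div_iff₀ hbh] at hcon
    exact hcon
  have h5 : 0 ≤ f * (b : ℝ) ^ h := by positivity
  have h7 : ((a / b ^ p : ℕ) : ℤ) = (w : ℤ) + n * (b : ℤ) ^ h := by
    have h8 : (a : ℝ) / (b : ℝ) ^ p = ((a : ℕ) : ℝ) / ((b ^ p : ℕ) : ℝ) := by push_cast; rfl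
    have h9 : (((a / b ^ p : ℕ) : ℤ) : ℝ) ≤ (a : ℝ) / (b : ℝ) ^ p := by
      rw [h8]
      exact_mod_cast Nat.cast_div_le (α := ℝ) (m := a) (n := b ^ p)
    have h10 : (a : ℝ) / (b : ℝ) ^ p < (((a / b ^ p : ℕ) : ℤ) : ℝ) + 1 := by
      rw [h8]
      have h15 := Nat.lt_floor_add_one (((a : ℕ) : ℝ) / ((b ^ p : ℕ) : ℝ))
      rw [Nat.floor_div_eq_div] at h15
      exact_mod_cast h15
    have h11 : (((a / b ^ p : ℕ) : ℤ) : ℝ) < (((w : ℤ) + n * (b : ℤ) ^ h + 1 : ℤ) : ℝ) := by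
      push_cast
      push_cast at h9
      linarith
    have h12 : (((w : ℤ) + n * (b : ℤ) ^ h : ℤ) : ℝ) < (((a / b ^ p : ℕ) + 1 : ℤ) : ℝ) := by
      push_cast
      push_cast at h10
      linarith
    have h13 := Int.cast_lt.1 h11
    have h14 := Int.cast_lt.1 h12
    omega
  refine hne ?_
  have h9 : ((a / b ^ p % b ^ h : ℕ) : ℤ) = w := by
    push_cast
    push_cast at h7
    rw [h7, Int.add_mul_emod_self_right]
    exact Int.emod_eq_of_lt (by positivity) (by exact_mod_cast hw)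
  exact_mod_cast h9

theorem log_block_lt {b : ℕ} (hb : 2 ≤ b) {n x : ℕ} (h : b ^ (n + 1) ≤ x) :
    Nat.log 2 (b ^ n) < Nat.log 2 x := by
  have hpos : b ^ n ≠ 0 := by positivity
  have h1 : 2 * b ^ n ≤ x := by
    refine le_trans ?_ h
    rw [pow_succ, mul_comm]
    exact Nat.mul_le_mul_left _ hb
  have h2 : Nat.log 2 (b ^ n * 2) ≤ Nat.log 2 x := Nat.log_mono_right (by omega)
  rw [Nat.log_mul_base one_lt_two hpos] at h2
  omega

/-- **Missing blocks give gaps.** If for all positions `p` in `P` the block of `h` digits at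
position `p` of the elements `a ≥ b ^ (p + h)` of `A` is not `w p`, every such position with
`b ^ (p + h + 1) ≤ x` gives a scale with a gap of length `1 / b ^ h`. -/
theorem blocks_gapScales {b : ℕ} (hb : 2 ≤ b) {h : ℕ} {A : Set ℕ} (P : Finset ℕ) (w : ℕ → ℕ)
    (hw : ∀ p ∈ P, w p < b ^ h)
    (hA : ∀ a ∈ A, ∀ p ∈ P, b ^ (p + h) ≤ a → a / b ^ p % b ^ h ≠ w p) {x : ℕ}
    (hx : ∀ p ∈ P, b ^ (p + h + 1) ≤ x) :
    #P ≤ #(gapScales A (1 / (b : ℝ) ^ h) x) := by
  classical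
  refine card_le_card_of_injOn (fun p => Nat.log 2 (b ^ (p + h))) ?_ ?_
  · intro p hp
    rw [mem_coe] at hp
    have hbp : b ^ (p + h) ≠ 0 := by positivity
    simp only [gapScales, coe_filter, mem_range, Set.mem_ofPred_eq]
    refine ⟨log_block_lt hb (hx p hp), (b : ℝ) ^ (p + h), ?_, ?_, (w p : ℝ) / (b : ℝ) ^ h, ?_⟩
    · exact_mod_cast Nat.pow_log_le_self 2 hbp
    · exact_mod_cast Nat.lt_pow_succ_log_self one_lt_two (b ^ (p + h))
    · intro a ha hMa _
      exact fract_of_block hb (hw p hp) (hA a ha p hp (by exact_mod_cast hMa))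
  · have hmono : StrictMono (fun p => Nat.log 2 (b ^ (p + h))) := by
      refine strictMono_nat_of_lt_succ fun p => ?_
      refine log_block_lt hb (n := p + h) ?_
      rw [show p + h + 1 = p + 1 + h by omega]
    exact hmono.injective.injOn

/-- **Missing words give gaps.** If no element of `A` has the word `w` in its digits to base `b`,
all but at most `w.length` of the scales `b ^ n ≤ x` have a gap of length `1 / b ^ w.length`. -/
theorem word_gapScales {b : ℕ} (hb : 2 ≤ b) {w : List ℕ} (hw : ∀ d ∈ w, d < b) {A : Set ℕ}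
    (hA : ∀ a ∈ A, ¬ w <:+: Nat.digits b a) {x : ℕ} (hx : x ≠ 0) :
    Nat.log b x ≤ #(gapScales A (1 / (b : ℝ) ^ w.length) x) + w.length := by
  have h1 := blocks_gapScales (A := A) (x := x) hb (h := w.length) (range (Nat.log b x - w.length))
    (fun _ => Nat.ofDigits b w) (fun _ _ => word_lt hb hw)
    (fun a ha p _ hap => word_avoid hb hw hA ha hap) ?_
  · rw [card_range] at h1
    omega
  · intro p hp
    rw [mem_range] at hp
    exact Nat.pow_le_of_le_log hx (by omega)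

end Pool.Agent.Helper67.MD
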