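import Pool.Agent.Helper67.MD.Gap
import Pool.Agent.Helper25.RC.Defs

/-!
From the mean square inequality for gap scales to power growth of the number of representations.
-/

set_option autoImplicit false

open Finset Filter

namespace Pool.Agent.Helper67.MD

open Pool.Agent.Helper25.RC

theorem rep_le (A : Set ℕ) (n : ℕ) : rep A n ≤ n + 1 := by
  classical
  unfold rep
  calc _ ≤ #(antidiagonal n) := card_filter_le _ _
    _ = n + 1 := Finset.Nat.card_antidiagonal n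

/-- the mean square inequality for gaps of length `ε` -/
def GapIneq (ε c C : ℝ) : Prop := ∀ (A : Set ℕ) (x : ℕ), 1 ≤ x →
  (#(below A x) : ℝ) ^ 4 * (1 + c) ^ #(gapScales A ε x) ≤
    C * x * ∑ n ∈ range (2 * x), (rep A n : ℝ) ^ 2

/-- some `n < 2 x` with a large number of representations -/
theorem exists_large (A : Set ℕ) {x : ℕ} (hx : 1 ≤ x) :
    ∃ n < 2 * x, ∑ k ∈ range (2 * x), (rep A k : ℝ) ^ 2 ≤ 2 * x * (rep A n : ℝ) ^ 2 := by
  obtain ⟨n, hn, hmax⟩ := Finset.exists_max_image (range (2 * x)) (fun k => rep A k)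
    ⟨0, mem_range.2 (by omega)⟩
  refine ⟨n, mem_range.1 hn, ?_⟩
  calc ∑ k ∈ range (2 * x), (rep A k : ℝ) ^ 2 ≤ ∑ _k ∈ range (2 * x), (rep A n : ℝ) ^ 2 := by
        refine Finset.sum_le_sum fun k hk => ?_
        have : (rep A k : ℝ) ≤ rep A n := by exact_mod_cast hmax k hk
        gcongr
    _ = 2 * x * (rep A n : ℝ) ^ 2 := by
        rw [Finset.sum_const, card_range, nsmul_eq_mul]; push_cast; ring

/-- **Power growth.** -/
theorem power_of_gaps {ε c₀ C ρ : ℝ} (hc₀ : 0 < c₀) (hρ : 0 < ρ) (h : GapIneq ε c₀ C) :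
    ∃ c : ℝ, 0 < c ∧ ∀ A : Set ℕ,
      (∃ᶠ x : ℕ in atTop, ρ * Real.log x ≤ #(gapScales A ε x) ∧
        (x : ℝ) ^ (1 / 2 - c) ≤ #(below A x)) →
      ∃ᶠ n : ℕ in atTop, (n : ℝ) ^ c ≤ rep A n := by
  have hlog : 0 < Real.log (1 + c₀) := Real.log_pos (by linarith)
  set κ : ℝ := ρ * Real.log (1 + c₀) with hκ
  have hκ0 : 0 < κ := by positivity
  set D : ℝ := max C 1 with hD
  have hD0 : 0 < D := lt_of_lt_of_le one_pos (le_max_right _ _)
  refine ⟨κ / 16, by positivity, fun A hA => ?_⟩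
  set c : ℝ := κ / 16 with hc
  have hcpos : 0 < c := by positivity
  rw [Filter.frequently_atTop]
  intro N
  -- the largeness conditions
  have e1 : ∀ᶠ x : ℕ in atTop, 2 * D * (2 : ℝ) ^ (2 * c) ≤ (x : ℝ) ^ (10 * c) :=
    ((tendsto_rpow_atTop (by positivity)).comp tendsto_natCast_atTop_atTop).eventually_ge_atTop _
  have e2 : ∀ᶠ x : ℕ in atTop, ((N : ℝ) + 2) ≤ (x : ℝ) ^ c :=
    ((tendsto_rpow_atTop hcpos).comp tendsto_natCast_atTop_atTop).eventually_ge_atTop _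
  obtain ⟨x, ⟨hx1, hx2⟩, hx3, hx4, hx5⟩ :=
    (hA.and_eventually (e1.and (e2.and (eventually_ge_atTop 1)))).exists
  have hxpos : (0 : ℝ) < x := by exact_mod_cast hx5
  have hx1' : (1 : ℝ) ≤ x := by exact_mod_cast hx5
  obtain ⟨n, hn, hnmax⟩ := exists_large A hx5
  have h1 := h A x hx5
  -- lower bound of the left side
  have h2 : (x : ℝ) ^ (2 - 4 * c) ≤ (#(below A x) : ℝ) ^ 4 := by
    calc (x : ℝ) ^ (2 - 4 * c) = ((x : ℝ) ^ (1 / 2 - c)) ^ 4 := by
          rw [← Real.rpow_natCast, ← Real.rpow_mul hxpos.le]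
          congr 1
          push_cast
          ring
      _ ≤ (#(below A x) : ℝ) ^ 4 := by gcongr
  have h3 : (x : ℝ) ^ κ ≤ (1 + c₀) ^ #(gapScales A ε x) := by
    calc (x : ℝ) ^ κ = (1 + c₀) ^ (ρ * Real.log x) := by
          rw [Real.rpow_def_of_pos hxpos, Real.rpow_def_of_pos (by linarith)]
          congr 1
          rw [hκ]; ring
      _ ≤ (1 + c₀) ^ ((#(gapScales A ε x) : ℕ) : ℝ) :=
          Real.rpow_le_rpow_of_exponent_le (by linarith) hx1
      _ = (1 + c₀) ^ #(gapScales A ε x) := Real.rpow_natCast _ _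
  have h4 : (x : ℝ) ^ (2 - 4 * c) * (x : ℝ) ^ κ ≤
      D * x * (2 * x * (rep A n : ℝ) ^ 2) := by
    calc (x : ℝ) ^ (2 - 4 * c) * (x : ℝ) ^ κ
        ≤ (#(below A x) : ℝ) ^ 4 * (1 + c₀) ^ #(gapScales A ε x) := by gcongr
      _ ≤ C * x * ∑ k ∈ range (2 * x), (rep A k : ℝ) ^ 2 := h1
      _ ≤ D * x * ∑ k ∈ range (2 * x), (rep A k : ℝ) ^ 2 := by
          gcongr
          exact le_max_left _ _
      _ ≤ D * x * (2 * x * (rep A n : ℝ) ^ 2) := by gcongr
  have h5 : (x : ℝ) ^ (2 - 4 * c) * (x : ℝ) ^ κ = x ^ 2 * ((x : ℝ) ^ (10 * c) * (x : ℝ) ^ (2 * c)) := by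
    rw [← Real.rpow_add hxpos, ← Real.rpow_add hxpos, ← Real.rpow_natCast, ← Real.rpow_add hxpos]
    congr 1
    push_cast
    rw [hc]; ring
  rw [h5] at h4
  have h6 : (x : ℝ) ^ (10 * c) * (x : ℝ) ^ (2 * c) ≤ 2 * D * (rep A n : ℝ) ^ 2 := by
    have h7 : (x : ℝ) ^ 2 * ((x : ℝ) ^ (10 * c) * (x : ℝ) ^ (2 * c)) ≤
        (x : ℝ) ^ 2 * (2 * D * (rep A n : ℝ) ^ 2) := by
      refine h4.trans (le_of_eq ?_)
      ring
    exact le_of_mul_le_mul_left h7 (by positivity)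
  have h7 : (2 : ℝ) ^ (2 * c) * (x : ℝ) ^ (2 * c) ≤ (rep A n : ℝ) ^ 2 := by
    have h8 : 2 * D * ((2 : ℝ) ^ (2 * c) * (x : ℝ) ^ (2 * c)) ≤ 2 * D * (rep A n : ℝ) ^ 2 := by
      refine le_trans ?_ h6
      rw [← mul_assoc]
      gcongr
    exact le_of_mul_le_mul_left h8 (by positivity)
  have h8 : (2 * (x : ℝ)) ^ c ≤ rep A n := by
    have h9 : ((2 * (x : ℝ)) ^ c) ^ 2 ≤ (rep A n : ℝ) ^ 2 := by
      refine le_trans (le_of_eq ?_) h7
      rw [← Real.mul_rpow (by norm_num) hxpos.le, ← Real.rpow_natCast, ← Real.rpow_mul (by positivity)]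
      congr 1
      push_cast
      ring
    exact (pow_le_pow_iff_left₀ (by positivity) (by positivity) (by norm_num)).1 h9
  refine ⟨n, ?_, ?_⟩
  · have h9 : ((N : ℝ) + 2) ≤ rep A n := by
      refine hx4.trans (le_trans ?_ h8)
      refine Real.rpow_le_rpow hxpos.le ?_ hcpos.le
      linarith
    have h10 : N + 2 ≤ rep A n := by exact_mod_cast h9
    have h11 := rep_le A n
    omega
  · refine le_trans ?_ h8
    refine Real.rpow_le_rpow (by positivity) ?_ hcpos.le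
    have : (n : ℝ) < ((2 * x : ℕ) : ℝ) := by exact_mod_cast hn
    push_cast at this
    exact this.le

/-- **Missing words.** -/
theorem power_of_word {b : ℕ} (hb : 2 ≤ b) {w : List ℕ} (hw : ∀ d ∈ w, d < b) {c₀ C : ℝ}
    (hc₀ : 0 < c₀) (h : GapIneq (1 / (b : ℝ) ^ w.length) c₀ C) :
    ∃ c : ℝ, 0 < c ∧ ∀ A : Set ℕ, (∀ a ∈ A, ¬ w <:+: Nat.digits b a) →
      (∃ᶠ x : ℕ in atTop, (x : ℝ) ^ (1 / 2 - c) ≤ #(below A x)) →
      ∃ᶠ n : ℕ in atTop, (n : ℝ) ^ c ≤ rep A n := by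
  have hb1 : (1 : ℝ) < b := by exact_mod_cast (show 1 < b by omega)
  have hlb : 0 < Real.log b := Real.log_pos hb1
  obtain ⟨c, hc, hc'⟩ := power_of_gaps (ρ := 1 / (2 * Real.log b)) hc₀ (by positivity) h
  refine ⟨c, hc, fun A hA hA' => hc' A ?_⟩
  have e1 : ∀ᶠ x : ℕ in atTop, 2 * Real.log b * (w.length + 1) ≤ Real.log x :=
    (Real.tendsto_log_atTop.comp tendsto_natCast_atTop_atTop).eventually_ge_atTop _
  refine (hA'.and_eventually (e1.and (eventually_ge_atTop 1))).mono ?_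
  rintro x ⟨h1, h2, h3⟩
  refine ⟨?_, h1⟩
  have h4 := word_gapScales hb hw hA (x := x) (by omega)
  have h4' : (Nat.log b x : ℝ) ≤ #(gapScales A (1 / (b : ℝ) ^ w.length) x) + w.length := by
    exact_mod_cast h4
  have h5 : Real.log x ≤ (Nat.log b x + 1) * Real.log b := by
    have h6 : x < b ^ (Nat.log b x + 1) := Nat.lt_pow_succ_log_self (by omega) x
    have h7 : (x : ℝ) ≤ (b : ℝ) ^ (Nat.log b x + 1) := by exact_mod_cast h6.le
    have h8 := Real.log_le_log (by exact_mod_cast h3) h7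
    rw [Real.log_pow] at h8
    push_cast at h8
    exact h8
  rw [div_mul_eq_mul_div, one_mul, div_le_iff₀ (by positivity)]
  nlinarith

open Classical in
/-- **Missing blocks** at a set of positions of positive lower density. -/
theorem power_of_blocks {b : ℕ} (hb : 2 ≤ b) (h : ℕ) {c₀ C ρ : ℝ} (hc₀ : 0 < c₀) (hρ : 0 < ρ)
    (hG : GapIneq (1 / (b : ℝ) ^ h) c₀ C) :
    ∃ c : ℝ, 0 < c ∧ ∀ (A P : Set ℕ) (w : ℕ → ℕ), (∀ p ∈ P, w p < b ^ h) →
      (∀ᶠ N : ℕ in atTop, ρ * N ≤ #{p ∈ range N | p ∈ P}) →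
      (∀ a ∈ A, ∀ p ∈ P, b ^ (p + h) ≤ a → a / b ^ p % b ^ h ≠ w p) →
      (∃ᶠ x : ℕ in atTop, (x : ℝ) ^ (1 / 2 - c) ≤ #(below A x)) →
      ∃ᶠ n : ℕ in atTop, (n : ℝ) ^ c ≤ rep A n := by
  have hb1 : (1 : ℝ) < b := by exact_mod_cast (show 1 < b by omega)
  have hlb : 0 < Real.log b := Real.log_pos hb1
  obtain ⟨c, hc, hc'⟩ := power_of_gaps (ρ := ρ / (2 * Real.log b)) hc₀ (by positivity) hG
  refine ⟨c, hc, fun A P w hw hP hA hA' => hc' A ?_⟩
  have e1 : ∀ᶠ x : ℕ in atTop, 2 * Real.log b * (h + 1) ≤ Real.log x :=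
    (Real.tendsto_log_atTop.comp tendsto_natCast_atTop_atTop).eventually_ge_atTop _
  have htl : Tendsto (fun x : ℕ => Nat.log b x) atTop atTop := by
    refine tendsto_atTop.2 fun N => ?_
    filter_upwards [eventually_ge_atTop (b ^ N)] with x hx
    exact Nat.le_log_of_pow_le (by omega) hx
  have htl' : Tendsto (fun x : ℕ => Nat.log b x - h) atTop atTop :=
    (tendsto_sub_atTop_nat h).comp htl
  refine (hA'.and_eventually (e1.and ((eventually_ge_atTop 1).and (htl'.eventually hP)))).mono ?_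
  rintro x ⟨h1, h2, h3, h4⟩
  refine ⟨?_, h1⟩
  set Q : Finset ℕ := {p ∈ range (Nat.log b x - h) | p ∈ P} with hQ
  have h5 := blocks_gapScales (A := A) (x := x) hb (h := h) Q w
    (fun p hp => hw p (mem_filter.1 hp).2)
    (fun a ha p hp hap => hA a ha p (mem_filter.1 hp).2 hap) ?_
  · have h5' : (#Q : ℝ) ≤ #(gapScales A (1 / (b : ℝ) ^ h) x) := by exact_mod_cast h5
    have h6 : Real.log x ≤ (Nat.log b x + 1) * Real.log b := by
      have h7 : x < b ^ (Nat.log b x + 1) := Nat.lt_pow_succ_log_self (by omega) x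
      have h8 : (x : ℝ) ≤ (b : ℝ) ^ (Nat.log b x + 1) := by exact_mod_cast h7.le
      have h9 := Real.log_le_log (by exact_mod_cast h3) h8
      rw [Real.log_pow] at h9
      push_cast at h9
      exact h9
    have h7 : (Nat.log b x : ℝ) - h ≤ ((Nat.log b x - h : ℕ) : ℝ) := by
      rw [sub_le_iff_le_add]
      exact_mod_cast (show Nat.log b x ≤ Nat.log b x - h + h by omega)
    have h8 : Real.log x / (2 * Real.log b) ≤ ((Nat.log b x - h : ℕ) : ℝ) := by
      refine le_trans ?_ h7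
      rw [div_le_iff₀ (by positivity)]
      nlinarith
    calc ρ / (2 * Real.log b) * Real.log x = ρ * (Real.log x / (2 * Real.log b)) := by ring
      _ ≤ ρ * ((Nat.log b x - h : ℕ) : ℝ) := by gcongr
      _ ≤ #Q := h4
      _ ≤ _ := h5'
  · intro p hp
    rw [hQ, mem_filter, mem_range] at hp
    exact Nat.pow_le_of_le_log (by omega) (by omega)

end Pool.Agent.Helper67.MD
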