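import Mathlib

/-!
The blocks of digits of a number, as residues and as infixes of the list of digits.
-/

set_option autoImplicit false

namespace Pool.Agent.Helper67.MD

/-- if the block of `w.length` digits of `a` at position `p` has the value of the word `w` (least
significant digit first), then `w` occurs in the digits of `a` -/
theorem word_occurs {b : ℕ} (hb : 2 ≤ b) {w : List ℕ} (hw : ∀ d ∈ w, d < b) {a p : ℕ}
    (ha : b ^ (p + w.length) ≤ a) (h : a / b ^ p % b ^ w.length = Nat.ofDigits b w) :
    w <:+: Nat.digits b a := by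
  have hlen : p + w.length < (Nat.digits b a).length := (Nat.lt_digits_length_iff hb a).2 ha
  set L := ((Nat.digits b a).drop p).take w.length with hL
  have hdig : ∀ d ∈ Nat.digits b a, d < b := fun d hd => Nat.digits_lt_base hb hd
  have h1 : a / b ^ p % b ^ w.length = Nat.ofDigits b L := by
    rw [Nat.self_div_pow_eq_ofDigits_drop p a hb,
      Nat.ofDigits_mod_pow_eq_ofDigits_take w.length (by omega) _
        (fun d hd => hdig d (List.mem_of_mem_drop hd))]
  have h2 : L = w := by
    refine Nat.ofDigits_inj_of_len_eq (b := b) (by omega) ?_ ?_ hw (by rw [← h1, h])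
    · rw [hL, List.length_take, List.length_drop]
      omega
    · intro d hd
      exact hdig d (List.mem_of_mem_drop (List.mem_of_mem_take hd))
  rw [← h2, hL]
  exact (List.take_prefix _ _).isInfix.trans (List.drop_suffix _ _).isInfix

/-- a set of numbers whose digits avoid the word `w` -/
theorem word_avoid {b : ℕ} (hb : 2 ≤ b) {w : List ℕ} (hw : ∀ d ∈ w, d < b) {A : Set ℕ}
    (hA : ∀ a ∈ A, ¬ w <:+: Nat.digits b a) {a p : ℕ} (haA : a ∈ A)
    (ha : b ^ (p + w.length) ≤ a) : a / b ^ p % b ^ w.length ≠ Nat.ofDigits b w :=
  fun h => hA a haA (word_occurs hb hw ha h)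

/-- the value of a word of digits is less than `b` to its length -/
theorem word_lt {b : ℕ} (hb : 2 ≤ b) {w : List ℕ} (hw : ∀ d ∈ w, d < b) :
    Nat.ofDigits b w < b ^ w.length := Nat.ofDigits_lt_base_pow_length (by omega) hw

/-- the converse: a word occurring in the digits is the block at some position -/
theorem word_position {b : ℕ} (hb : 2 ≤ b) {w : List ℕ} {a : ℕ}
    (h : w <:+: Nat.digits b a) : ∃ p, p + w.length ≤ (Nat.digits b a).length ∧
      a / b ^ p % b ^ w.length = Nat.ofDigits b w := by
  obtain ⟨s, t, h⟩ := h
  have hdig : ∀ d ∈ Nat.digits b a, d < b := fun d hd => Nat.digits_lt_base hb hd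
  refine ⟨s.length, ?_, ?_⟩
  · rw [← h, List.length_append, List.length_append]
    omega
  · rw [Nat.self_div_pow_eq_ofDigits_drop s.length a hb,
      Nat.ofDigits_mod_pow_eq_ofDigits_take w.length (by omega) _
        (fun d hd => hdig d (List.mem_of_mem_drop hd)), ← h, List.append_assoc,
      List.drop_left, List.take_left]

end Pool.Agent.Helper67.MD
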